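import Pool.Agent.H672.LL.TriInt

/-! # Lemma (L): the two directions point strictly inwards -/

set_option autoImplicit false

namespace Pool.Agent.H672.LL

open Pool.Agent.H332.LL

theorem det_q (p : ℤ → P2) (a : ℤ) (s : ℝ) (y : P2) :
    det (q p a s) y = (1 - s) * det (p a) y + s * det (p (a + 1)) y := by
  unfold q det
  simp only [Prod.fst_add, Prod.snd_add, Prod.smul_fst, Prod.smul_snd, smul_eq_mul]
  ring

theorem det_anti (u v : P2) : det u v = -det v u := by
  unfold det
  ring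

theorem det_self (u : P2) : det u u = 0 := by
  unfold det
  ring

theorem det_neg_right (u v : P2) : det u (-v) = det v u := by
  unfold det
  simp only [Prod.fst_neg, Prod.snd_neg]
  ring

theorem det_add_left (u v w : P2) : det (u + v) w = det u w + det v w := by
  unfold det
  simp only [Prod.fst_add, Prod.snd_add]
  ring

theorem cramer (x y A : P2) : det x y • (-A) = -det A y • x + det A x • y := by
  unfold det
  apply Prod.ext
  · simp only [Prod.smul_fst, Prod.fst_neg, Prod.fst_add, smul_eq_mul]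
    ring
  · simp only [Prod.smul_snd, Prod.snd_neg, Prod.snd_add, smul_eq_mul]
    ring

theorem first (hcone : S_cone) (htri : S_tri) (m : ℕ) (p : ℤ → P2) (z : ℤ → ℝ) (K : Set P3)
    (hC : Conf m p z) (hB : Body p z K) (a b : ℤ) (s t : ℝ) (hab : a < b) (hba : b < a + m)
    (hD : Dom m a b s t) (i : ℤ) (hi : a + 1 ≤ i) (hi' : i ≤ b) :
    ∃ k : ℝ, (v1 p a b s t, k) ∈ C K (vx p z i) := by
  obtain ⟨hs0, hs1, ht0, ht1, hst, hD1, hD2⟩ := hD
  obtain ⟨tp, tw, ts⟩ := tri_int htri m p z hC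
  have hW : 0 < det (p i) (p (b + 1)) := tp i (b + 1) (by omega) (by omega)
  -- names for the brackets
  obtain ⟨A1, hA1⟩ : ∃ x, x = det (p a) (p (b + 1)) := ⟨_, rfl⟩
  obtain ⟨A2, hA2⟩ : ∃ x, x = det (p (a + 1)) (p (b + 1)) := ⟨_, rfl⟩
  obtain ⟨A3, hA3⟩ : ∃ x, x = det (p b) (p (b + 1)) := ⟨_, rfl⟩
  obtain ⟨B1, hB1⟩ : ∃ x, x = det (p a) (p i) := ⟨_, rfl⟩
  obtain ⟨B2, hB2⟩ : ∃ x, x = det (p (a + 1)) (p i) := ⟨_, rfl⟩
  obtain ⟨B3, hB3⟩ : ∃ x, x = det (p i) (p b) := ⟨_, rfl⟩
  obtain ⟨B4, hB4⟩ : ∃ x, x = det (p i) (p (b + 1)) := ⟨_, rfl⟩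
  have hα : det (q p a s + q p b t) (p (b + 1)) = (1 - s) * A1 + s * A2 + (1 - t) * A3 := by
    rw [det_add_left, det_q, det_q, det_self, hA1, hA2, hA3]
    ring
  have hγ : det (q p a s + q p b t) (p i) =
      (1 - s) * B1 + s * B2 - (1 - t) * B3 - t * B4 := by
    rw [det_add_left, det_q, det_q, hB1, hB2, hB3, hB4, det_anti (p b) (p i),
      det_anti (p (b + 1)) (p i)]
    ring
  -- triangle inequalities
  have w1 := tw a i (b + 1) (by omega) (by omega) (by omega)
  rw [← hA1, ← hB1, ← hB4] at w1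
  have w2 := tw i b (b + 1) hi' (by omega) (by omega)
  rw [← hA3, ← hB3, ← hB4] at w2
  have e4 : 0 < -B2 + A2 + B4 := by
    rcases eq_or_lt_of_le hi with h | h
    · have h1 : B2 = 0 := by rw [hB2, h, det_self]
      have h2 : A2 = B4 := by rw [hA2, hB4, h]
      rw [h1, h2, hB4]
      linarith
    · have h1 := ts (a + 1) i (b + 1) h (by omega) (by omega)
      rw [← hA2, ← hB2, ← hB4] at h1
      linarith [h1.2.1]
  have f4 : 0 ≤ B2 + A2 - B4 := by
    have h1 := tw (a + 1) i (b + 1) hi (by omega) (by omega)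
    rw [← hA2, ← hB2, ← hB4] at h1
    linarith [h1.2.2]
  have f1 : 0 < A3 - B3 + B4 := by
    rcases eq_or_lt_of_le hi' with h | h
    · have h1 : B3 = 0 := by rw [hB3, h, det_self]
      have h2 : A3 = B4 := by rw [hA3, hB4, h]
      rw [h1, h2, hB4]
      linarith
    · have h1 := ts i b (b + 1) h (by omega) (by omega)
      rw [← hA3, ← hB3, ← hB4] at h1
      linarith [h1.2.1]
  have strict : b + 1 < a + m → 0 < A1 - B1 + B4 ∧ 0 < A1 + B1 - B4 := by
    intro hlt
    have h1 := ts a i (b + 1) (by omega) (by omega) hlt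
    rw [← hA1, ← hB1, ← hB4] at h1
    exact ⟨by linarith [h1.2.1], by linarith [h1.2.2]⟩
  have g1 : 0 ≤ A3 + B3 - B4 := by linarith [w2.1]
  have g2 : 0 ≤ A1 - B1 + B4 := by linarith [w1.2.1]
  have g3 : 0 ≤ A1 + B1 - B4 := by linarith [w1.2.2]
  have hm1 : ((1 - s) * A1 + s * A2 + (1 - t) * A3) - ((1 - s) * B1 + s * B2 - (1 - t) * B3 - t * B4) =
      (1 - s) * (A1 - B1 + B4) + s * (-B2 + A2 + B4) + (1 - t) * (A3 + B3 - B4) := by ring
  have hm2 : ((1 - s) * A1 + s * A2 + (1 - t) * A3) + ((1 - s) * B1 + s * B2 - (1 - t) * B3 - t * B4) =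
      (1 - s) * (A1 + B1 - B4) + s * (B2 + A2 - B4) + (1 - t) * (A3 - B3 + B4) := by ring
  have p1 : 0 < ((1 - s) * A1 + s * A2 + (1 - t) * A3) -
      ((1 - s) * B1 + s * B2 - (1 - t) * B3 - t * B4) := by
    rw [hm1]
    have c3 : 0 ≤ (1 - t) * (A3 + B3 - B4) := mul_nonneg (by linarith) g1
    have c1 : 0 ≤ (1 - s) * (A1 - B1 + B4) := mul_nonneg (by linarith) g2
    have c2 : 0 ≤ s * (-B2 + A2 + B4) := mul_nonneg hs0 e4.le
    rcases lt_or_ge (b + 1) (a + m) with h | h
    · rcases eq_or_lt_of_le hs0 with h0 | h0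
      · have c1' : 0 < (1 - s) * (A1 - B1 + B4) := mul_pos (by linarith) (strict h).1
        linarith
      · have c2' : 0 < s * (-B2 + A2 + B4) := mul_pos h0 e4
        linarith
    · have c2' : 0 < s * (-B2 + A2 + B4) := mul_pos (hD2 (by omega)).1 e4
      linarith
  have p2 : 0 < ((1 - s) * A1 + s * A2 + (1 - t) * A3) +
      ((1 - s) * B1 + s * B2 - (1 - t) * B3 - t * B4) := by
    rw [hm2]
    have c1 : 0 ≤ (1 - s) * (A1 + B1 - B4) := mul_nonneg (by linarith) g3
    have c2 : 0 ≤ s * (B2 + A2 - B4) := mul_nonneg hs0 f4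
    have c3 : 0 ≤ (1 - t) * (A3 - B3 + B4) := mul_nonneg (by linarith) f1.le
    rcases eq_or_lt_of_le ht1 with h | h
    · have hs : s < 1 := by
        rcases hst with h' | h'
        · exact h'.2
        · exact absurd h'.2 (by linarith)
      have hlt : b + 1 < a + m := by
        rcases lt_or_ge (b + 1) (a + m) with h' | h'
        · exact h'
        · exact absurd (hD2 (by omega)).2 (by linarith)
      have c1' : 0 < (1 - s) * (A1 + B1 - B4) := mul_pos (by linarith) (strict hlt).2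
      linarith
    · have c3' : 0 < (1 - t) * (A3 - B3 + B4) := mul_pos (by linarith) f1
      linarith
  have habs : |det (q p a s + q p b t) (p i)| < det (q p a s + q p b t) (p (b + 1)) := by
    rw [hα, hγ, abs_lt]
    exact ⟨by linarith, by linarith⟩
  exact (hcone m p z K hC hB i (b + 1) (v1 p a b s t) _ _ _ hW habs.le
    (cramer (p i) (p (b + 1)) (q p a s + q p b t))).2.2 habs

theorem inw (hcone : S_cone) (htri : S_tri) : S_inw := by
  intro m p z K hC hB a b s t hab hba hD
  constructor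
  · intro i hi
    rw [Finset.mem_Icc] at hi
    exact first hcone htri m p z K hC hB a b s t hab hba hD i hi.1 hi.2
  · intro j hj
    rw [Finset.mem_Icc] at hj
    have hD' : Dom m b (a + m) t s := by
      obtain ⟨hs0, hs1, ht0, ht1, hst, hD1, hD2⟩ := hD
      exact ⟨ht0, ht1, hs0, hs1, hst.symm, fun h => (hD2 (by omega)).symm,
        fun h => (hD1 (by omega)).symm⟩
    have hv : v1 p b (a + m) t s = v2 p a b s t := by
      have h1 : q p (a + m) s = -q p a s := by
        unfold q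
        rw [show a + (m : ℤ) + 1 = (a + 1) + m by ring, hC.hp, hC.hp]
        simp only [smul_neg]
        abel
      unfold v1 v2
      rw [h1]
      abel
    rw [← hv]
    exact first hcone htri m p z K hC hB b (a + m) t s hba (by omega) hD' j hj.1 hj.2

end Pool.Agent.H672.LL
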