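import Pool.Agent.H332.LL.Defs

/-! # Lemma (L): the triangle inequalities for integers

In `S_tri` and in `Conf.conv` the indices are natural numbers; here are the versions for
integers. -/

set_option autoImplicit false

namespace Pool.Agent.H672.LL

open Pool.Agent.H332.LL

theorem p_shift {m : ℕ} {p : ℤ → P2} {z : ℤ → ℝ} (hC : Conf m p z) (i : ℤ) (N : ℕ) :
    p (i + 2 * m * N) = p i := by
  induction N with
  | zero => simp
  | succ N ih =>
    have h : i + 2 * (m : ℤ) * ((N + 1 : ℕ) : ℤ) = i + 2 * m * N + m + m := by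
      push_cast
      ring
    rw [h, hC.hp, hC.hp, neg_neg, ih]

/-- integers are natural numbers after a shift -/
theorem exists_shift {m : ℕ} {p : ℤ → P2} {z : ℤ → ℝ} (hC : Conf m p z) (i : ℤ) :
    ∃ N : ℕ, ∀ j : ℤ, i ≤ j → ∃ n : ℕ, (n : ℤ) = j + 2 * m * N ∧ p (n : ℤ) = p j := by
  have hm := hC.hm
  refine ⟨i.natAbs, fun j hj => ?_⟩
  have h1 : 0 ≤ j + 2 * (m : ℤ) * (i.natAbs : ℤ) := by
    have h2 : (2 : ℤ) ≤ m := by exact_mod_cast hm
    have h3 : (0 : ℤ) ≤ (i.natAbs : ℤ) := Int.natCast_nonneg _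
    have h4 : -i ≤ (i.natAbs : ℤ) := by omega
    have h5 : (i.natAbs : ℤ) ≤ 2 * (m : ℤ) * (i.natAbs : ℤ) := by nlinarith
    linarith
  refine ⟨(j + 2 * (m : ℤ) * (i.natAbs : ℤ)).toNat, Int.toNat_of_nonneg h1, ?_⟩
  rw [Int.toNat_of_nonneg h1]
  exact p_shift hC j _

/-- **The triangle inequalities for integers.** -/
theorem tri_int (htri : S_tri) (m : ℕ) (p : ℤ → P2) (z : ℤ → ℝ) (hC : Conf m p z) :
    (∀ i j : ℤ, i < j → j < i + m → 0 < det (p i) (p j)) ∧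
    (∀ i j k : ℤ, i ≤ j → j ≤ k → k ≤ i + m →
      det (p i) (p k) ≤ det (p i) (p j) + det (p j) (p k) ∧
      det (p i) (p j) ≤ det (p j) (p k) + det (p i) (p k) ∧
      det (p j) (p k) ≤ det (p i) (p j) + det (p i) (p k)) ∧
    (∀ i j k : ℤ, i < j → j < k → k < i + m →
      det (p i) (p k) < det (p i) (p j) + det (p j) (p k) ∧
      det (p i) (p j) < det (p j) (p k) + det (p i) (p k) ∧
      det (p j) (p k) < det (p i) (p j) + det (p i) (p k)) := by
  obtain ⟨tp, tw, ts⟩ := htri m p z hC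
  refine ⟨?_, ?_, ?_⟩
  · intro i j h1 h2
    obtain ⟨N, hN⟩ := exists_shift hC i
    obtain ⟨i', hi, hpi⟩ := hN i le_rfl
    obtain ⟨j', hj, hpj⟩ := hN j h1.le
    rw [← hpi, ← hpj]
    exact tp i' j' (by omega) (by omega)
  · intro i j k h1 h2 h3
    obtain ⟨N, hN⟩ := exists_shift hC i
    obtain ⟨i', hi, hpi⟩ := hN i le_rfl
    obtain ⟨j', hj, hpj⟩ := hN j h1
    obtain ⟨k', hk, hpk⟩ := hN k (h1.trans h2)
    rw [← hpi, ← hpj, ← hpk]
    exact tw i' j' k' (by omega) (by omega) (by omega)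
  · intro i j k h1 h2 h3
    obtain ⟨N, hN⟩ := exists_shift hC i
    obtain ⟨i', hi, hpi⟩ := hN i le_rfl
    obtain ⟨j', hj, hpj⟩ := hN j h1.le
    obtain ⟨k', hk, hpk⟩ := hN k (h1.trans h2).le
    rw [← hpi, ← hpj, ← hpk]
    exact ts i' j' k' (by omega) (by omega) (by omega)

/-- convexity for integers -/
theorem conv_int {m : ℕ} {p : ℤ → P2} {z : ℤ → ℝ} (hC : Conf m p z) (i j k : ℤ) (h1 : i < j)
    (h2 : j < k) (h3 : k < i + 2 * m) : 0 < det (p j - p i) (p k - p j) := by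
  obtain ⟨N, hN⟩ := exists_shift hC i
  obtain ⟨i', hi, hpi⟩ := hN i le_rfl
  obtain ⟨j', hj, hpj⟩ := hN j h1.le
  obtain ⟨k', hk, hpk⟩ := hN k (h1.trans h2).le
  rw [← hpi, ← hpj, ← hpk]
  exact hC.conv i' j' k' (by omega) (by omega) (by omega)

end Pool.Agent.H672.LL
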